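import Pool.Agent.H53.IV.Fail

/-!
# The number of the nonelementary inclusive varieties of semilattices

Let `S` be the Boolean semilattice with `64` elements. The inclusive variety generated by `S`
contains exactly `2 ^ (2 ^ ℵ₀)` nonelementary inclusive varieties, as many as there are inclusive
varieties of semigroups at all; the ordered set of all sets of real numbers embeds into them.

`SL η` is the semilattice of the pairs `(A, B)` of arcs `A`, `B` of the circle `ℝ/ℤ` of length at
most `η false`, `η true` (the empty set is allowed, and one of `A`, `B` may be the whole circle)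
under intersection; here `2/5 < η false, η true < 1/2`. A product of its elements is the product of
six of them, and of five of them unless it is `(∅, ∅)` (Helly); therefore it belongs to the
inclusive variety generated by the Boolean semilattice. The inclusion `law θ` says that the product
of six letters, three for each of the two circles, is the product of five of them or has one of
certain other forms; it fails in `SL θ`, and if it fails in `SL η` then `θ false ≤ η false` and
`θ true ≤ η true`, or `θ false ≤ η true` and `θ true ≤ η false` (winding numbers of cycles of arcs).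
So the semilattices `SL η`, `η` in a suitable curve, are independent: each one is separated from all
the others by a single inclusion. Nonelementary classes then exist by counting.
-/

set_option autoImplicit false

namespace Pool.Agent.Results.MP_a762d4_al.PowerSetOfTheReals

open FirstOrder Cardinal Set Pool.Agent.H53.IV

universe u

/-- An identical inclusion: a word and a nonempty set of words over the alphabet `ℕ`. -/
structure IdInclusion where
  /-- the left hand word -/
  word : FreeSemigroup ℕ
  /-- the right hand set of words -/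
  set : Set (FreeSemigroup ℕ)
  /-- the set is nonempty -/
  nonempty : set.Nonempty

/-- The semigroup `S` satisfies the identical inclusion `i`: for every homomorphism from the free
semigroup over `ℕ` to `S`, the value of the left hand word is the value of some word of the set. -/
def Satisfies (S : Type u) [Semigroup S] (i : IdInclusion) : Prop :=
  ∀ φ : FreeSemigroup ℕ →ₙ* S, ∃ v ∈ i.set, φ i.word = φ v

/-- A class of semigroups. -/
abbrev SemigroupClass := (S : Type u) → [Semigroup S] → Prop

/-- `K` is an inclusive variety: it consists of exactly the semigroups satisfying every identical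
inclusion from some set. -/
def IsInclusiveVariety (K : SemigroupClass.{u}) : Prop :=
  ∃ E : Set IdInclusion, ∀ (S : Type u) [Semigroup S], K S ↔ ∀ i ∈ E, Satisfies S i

/-- All the members of `K` are semilattices, i.e. commutative idempotent semigroups. -/
def OfSemilattices (K : SemigroupClass.{u}) : Prop :=
  ∀ (S : Type u) [Semigroup S], K S → (∀ a : S, a * a = a) ∧ ∀ a b : S, a * b = b * a

/-- The inclusive variety generated by the semigroup `S`: the class of all semigroups satisfying
every identical inclusion which is satisfied by `S`. -/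
def generatedBy (S : Type) [Semigroup S] : SemigroupClass.{u} :=
  fun T _ => ∀ i : IdInclusion, Satisfies S i → Satisfies T i

/-- The only function symbol of the language of semigroups: one binary operation. -/
inductive MulFunc : ℕ → Type
  | mul : MulFunc 2

/-- The first-order language with one binary operation and no relation symbols. -/
def mulLang : Language := ⟨MulFunc, fun _ => Empty⟩

/-- A multiplication makes its carrier a structure for `mulLang`. -/
def mulStructure (S : Type u) [Mul S] : mulLang.Structure S where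
  funMap := fun {n} (f : MulFunc n) => match n, f with
    | _, MulFunc.mul => fun x => x 0 * x 1
  RelMap := fun {_} (r : Empty) => r.elim

/-- `K` is elementary: among nonempty semigroups, it consists of exactly the models of some set of
first-order sentences in the language of one binary operation. -/
def IsElementary (K : SemigroupClass.{u}) : Prop :=
  ∃ T : mulLang.Theory, ∀ (S : Type u) [Semigroup S] [Nonempty S],
    K S ↔ @Language.Theory.Model mulLang S (mulStructure S) T

/-- The Boolean semilattice with `64` elements: the subsets of a set with six elements. -/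
@[ext]
structure Boole where
  /-- the subset -/
  carrier : Finset (Bool × Fin 3)

/-- The multiplication is the union of subsets. -/
instance : Semigroup Boole where
  mul A B := ⟨A.carrier ∪ B.carrier⟩
  mul_assoc _ _ _ := Boole.ext (Finset.union_assoc _ _ _)

/-! ### The law -/

/-- The inclusion `law θ`. -/
def law (θ : Par) : IdInclusion where
  word := ⟨Encodable.encode (X false 0), [X false 1, X false 2, X true 0, X true 1, X true 2].map
    Encodable.encode⟩
  set := {w | ∃ l ∈ VL θ, w.head :: w.tail = l.map Encodable.encode}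
  nonempty := ⟨⟨Encodable.encode (X false 0), [X false 1, X false 2, X true 0, X true 1].map
    Encodable.encode⟩, [X false 0, X false 1, X false 2, X true 0, X true 1],
    Or.inl ⟨false, 0, 1, by norm_num, by norm_num, by norm_num, rfl⟩, rfl⟩

lemma eval_list {η : Par} (φ : FreeSemigroup ℕ →ₙ* SL η) {w : FreeSemigroup ℕ} {l : List Lam}
    (hw : w.head :: w.tail = l.map Encodable.encode) (d : Bool) (t : ℝ) :
    t ∈ (φ w).1 d ↔ ∀ y ∈ l, t ∈ (φ (FreeSemigroup.of (Encodable.encode y))).1 d := by
  rw [eval, hw]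
  simp only [List.mem_map, forall_exists_index, and_imp, forall_apply_eq_imp_iff₂]

lemma eval_word {η θ : Par} (φ : FreeSemigroup ℕ →ₙ* SL η) (d : Bool) (t : ℝ) :
    t ∈ (φ (law θ).word).1 d ↔
      ∀ y ∈ uL, t ∈ (φ (FreeSemigroup.of (Encodable.encode y))).1 d :=
  eval_list φ (l := uL) rfl d t

lemma VL_cons {θ : Par} {l : List Lam} (hl : l ∈ VL θ) : ∃ a l', l = a :: l' := by
  rcases hl with ⟨c, i, j, -, -, -, rfl⟩ | ⟨c, N, k, i, j, -, -, -, -, rfl⟩ | ⟨c, N, k, j, -, rfl⟩
  · exact ⟨_, _, rfl⟩
  · exact ⟨_, _, rfl⟩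
  · exact ⟨_, _, rfl⟩

theorem law_holds {θ η : Par}
    (h : ¬ ∃ π : Bool → Bool, π true ≠ π false ∧ ∀ c, θ.e c ≤ η.e (π c)) :
    Satisfies (SL η) (law θ) := by
  intro φ
  by_contra hcon
  push Not at hcon
  refine h (core (A := fun d y => (φ (FreeSemigroup.of (Encodable.encode y))).1 d)
    (fun d y => (φ _).2.1 d) (fun y => (φ _).2.2) ?_)
  intro l hl
  obtain ⟨a, l', rfl⟩ := VL_cons hl
  have hw : (⟨Encodable.encode a, l'.map Encodable.encode⟩ : FreeSemigroup ℕ).head ::
      (⟨Encodable.encode a, l'.map Encodable.encode⟩ : FreeSemigroup ℕ).tail =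
      (a :: l').map Encodable.encode := rfl
  by_contra hall
  push Not at hall
  refine hcon ⟨Encodable.encode a, l'.map Encodable.encode⟩ ⟨a :: l', hl, hw⟩ ?_
  refine Subtype.ext (funext fun d => Set.ext fun t => ?_)
  rw [eval_word, eval_list φ hw]
  exact hall d t

theorem law_fails (θ : Par) : ¬ Satisfies (SL θ) (law θ) := by
  intro h
  let ψ : ℕ → SL θ := Function.extend Encodable.encode (Phi θ) fun _ => Phi θ (X false 0)
  obtain ⟨v, ⟨l, hl, hv⟩, e⟩ := h (FreeSemigroup.lift ψ)
  have hψ : ∀ y, FreeSemigroup.lift ψ (FreeSemigroup.of (Encodable.encode y)) = Phi θ y := by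
    intro y
    rw [FreeSemigroup.lift_of]
    exact Encodable.encode_injective.extend_apply _ _ _
  obtain ⟨d, t, ht⟩ := realize_v θ l hl
  refine realize_u θ d t ?_
  have h1 : t ∈ (FreeSemigroup.lift ψ v).1 d := by
    rw [eval_list _ hv]
    intro y hy
    rw [hψ]
    exact ht y hy
  rw [← e, eval_word] at h1
  intro y hy
  rw [← hψ]
  exact h1 y hy

/-! ### Universes -/

lemma satisfies_ulift (S : Type) [Semigroup S] (i : IdInclusion) :
    Satisfies (ULift.{u} S) i ↔ Satisfies S i := by
  constructor
  · intro h φ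
    obtain ⟨v, hv, e⟩ := h ((MulEquiv.ulift (α := S)).symm.toMulHom.comp φ)
    exact ⟨v, hv, (MulEquiv.ulift (α := S)).symm.injective e⟩
  · intro h φ
    obtain ⟨v, hv, e⟩ := h ((MulEquiv.ulift (α := S)).toMulHom.comp φ)
    exact ⟨v, hv, (MulEquiv.ulift (α := S)).injective e⟩

/-! ### Semilattice laws -/

/-- The inclusion `x ∈ {x x}`. -/
def idemInclusion : IdInclusion where
  word := FreeSemigroup.of 0
  set := {FreeSemigroup.of 0 * FreeSemigroup.of 0}
  nonempty := ⟨_, rfl⟩

/-- The inclusion `x y ∈ {y x}`. -/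
def commInclusion : IdInclusion where
  word := FreeSemigroup.of 0 * FreeSemigroup.of 1
  set := {FreeSemigroup.of 1 * FreeSemigroup.of 0}
  nonempty := ⟨_, rfl⟩

lemma idem_of_satisfies (S : Type u) [Semigroup S] (h : Satisfies S idemInclusion) (x : S) :
    x * x = x := by
  obtain ⟨v, hv, e⟩ := h (FreeSemigroup.lift fun _ => x)
  rw [show v = _ from hv] at e
  simpa [idemInclusion] using e.symm

lemma comm_of_satisfies (S : Type u) [Semigroup S] (h : Satisfies S commInclusion) (x y : S) :
    x * y = y * x := by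
  obtain ⟨v, hv, e⟩ := h (FreeSemigroup.lift fun n => if n = 0 then x else y)
  rw [show v = _ from hv] at e
  simpa [commInclusion] using e

/-! ### Few letters -/

lemma three {e : ℝ} (he : e < 1 / 2) (A : ℕ → Set ℝ) (hA : ∀ n, GArc e (A n)) (l : List ℕ)
    (hl : l ≠ []) : ∃ b : Fin 3 → ℕ, (∀ i, b i ∈ l) ∧
      ∀ t, (∀ i, t ∈ A (b i)) → ∀ y ∈ l, t ∈ A y := by
  induction l with
  | nil => exact absurd rfl hl
  | cons y l ih =>
    rcases eq_or_ne l [] with rfl | hne
    · exact ⟨fun _ => y, by simp, fun t ht z hz => by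
        rw [List.mem_singleton] at hz; rw [hz]; exact ht 0⟩
    obtain ⟨b, hb, h⟩ := ih hne
    simp only [Fin.forall_fin_succ, Fin.succ_zero_eq_one, Fin.succ_one_eq_two,
      IsEmpty.forall_iff, and_true] at hb h
    have hb' := hb
    by_cases h0 : ∀ t, t ∈ A y → t ∈ A (b 1) → t ∈ A (b 2) → t ∈ A (b 0)
    · refine ⟨![y, b 1, b 2], ?_, ?_⟩
      · simp [Fin.forall_fin_succ, hb.2.1, hb.2.2]
      · intro t ht z hz
        simp only [Fin.forall_fin_succ, Matrix.cons_val_zero, Matrix.cons_val_succ,
          IsEmpty.forall_iff, and_true] at ht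
        rcases List.mem_cons.1 hz with rfl | hz
        · exact ht.1
        · exact h t ⟨h0 t ht.1 ht.2.1 ht.2.2, ht.2.1, ht.2.2⟩ z hz
    by_cases h1 : ∀ t, t ∈ A y → t ∈ A (b 0) → t ∈ A (b 2) → t ∈ A (b 1)
    · refine ⟨![y, b 0, b 2], ?_, ?_⟩
      · simp [Fin.forall_fin_succ, hb.1, hb.2.2]
      · intro t ht z hz
        simp only [Fin.forall_fin_succ, Matrix.cons_val_zero, Matrix.cons_val_succ,
          IsEmpty.forall_iff, and_true] at ht
        rcases List.mem_cons.1 hz with rfl | hz
        · exact ht.1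
        · exact h t ⟨ht.2.1, h1 t ht.1 ht.2.1 ht.2.2, ht.2.2⟩ z hz
    by_cases h2 : ∀ t, t ∈ A y → t ∈ A (b 0) → t ∈ A (b 1) → t ∈ A (b 2)
    · refine ⟨![y, b 0, b 1], ?_, ?_⟩
      · simp [Fin.forall_fin_succ, hb.1, hb.2.1]
      · intro t ht z hz
        simp only [Fin.forall_fin_succ, Matrix.cons_val_zero, Matrix.cons_val_succ,
          IsEmpty.forall_iff, and_true] at ht
        rcases List.mem_cons.1 hz with rfl | hz
        · exact ht.1
        · exact h t ⟨ht.2.1, ht.2.2, h2 t ht.1 ht.2.1 ht.2.2⟩ z hz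
    by_cases h3 : ∀ t, t ∈ A (b 0) → t ∈ A (b 1) → t ∈ A (b 2) → t ∈ A y
    · refine ⟨b, ?_, ?_⟩
      · intro i
        fin_cases i
        · exact List.mem_cons_of_mem _ hb.1
        · exact List.mem_cons_of_mem _ hb.2.1
        · exact List.mem_cons_of_mem _ hb.2.2
      · intro t ht z hz
        rcases List.mem_cons.1 hz with rfl | hz
        · exact h3 t (ht 0) (ht 1) (ht 2)
        · exact h t ⟨ht 0, ht 1, ht 2⟩ z hz
    push Not at h0 h1 h2 h3
    obtain ⟨t0, p1, p2, p3', p4⟩ := h0
    obtain ⟨t1, q1, q2, q3, q4⟩ := h1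
    obtain ⟨t2, r1, r2, r3, r4⟩ := h2
    obtain ⟨t3, s1, s2, s3, s4⟩ := h3
    exact (p3 he (hA (b 0)) (hA (b 1)) (hA (b 2)) s1 s2 s3 q2 r2 p2 r3 p3' q3 p4 q4 r4).elim

lemma two {e s : ℝ} (he : e < 1 / 2) (A : ℕ → Set ℝ) (hA : ∀ n, GArc e (A n)) (l : List ℕ)
    (hl : l ≠ []) (hs : ∀ y ∈ l, s ∈ A y) : ∃ b0 ∈ l, ∃ b1 ∈ l,
      ∀ t, t ∈ A b0 → t ∈ A b1 → ∀ y ∈ l, t ∈ A y := by
  induction l with
  | nil => exact absurd rfl hl
  | cons y l ih =>
    rcases eq_or_ne l [] with rfl | hne
    · exact ⟨y, by simp, y, by simp, fun t ht _ z hz => by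
        rw [List.mem_singleton] at hz; rw [hz]; exact ht⟩
    obtain ⟨b0, hb0, b1, hb1, h⟩ := ih hne fun z hz => hs z (List.mem_cons_of_mem _ hz)
    by_cases h0 : ∀ t, t ∈ A y → t ∈ A b1 → t ∈ A b0
    · refine ⟨y, by simp, b1, List.mem_cons_of_mem _ hb1, fun t ht ht' z hz => ?_⟩
      rcases List.mem_cons.1 hz with rfl | hz
      · exact ht
      · exact h t (h0 t ht ht') ht' z hz
    by_cases h1 : ∀ t, t ∈ A y → t ∈ A b0 → t ∈ A b1
    · refine ⟨y, by simp, b0, List.mem_cons_of_mem _ hb0, fun t ht ht' z hz => ?_⟩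
      rcases List.mem_cons.1 hz with rfl | hz
      · exact ht
      · exact h t ht' (h1 t ht ht') z hz
    by_cases h2 : ∀ t, t ∈ A b0 → t ∈ A b1 → t ∈ A y
    · refine ⟨b0, List.mem_cons_of_mem _ hb0, b1, List.mem_cons_of_mem _ hb1,
        fun t ht ht' z hz => ?_⟩
      rcases List.mem_cons.1 hz with rfl | hz
      · exact h2 t ht ht'
      · exact h t ht ht' z hz
    push Not at h0 h1 h2
    obtain ⟨t0, p1, p2, p3'⟩ := h0
    obtain ⟨t1, q1, q2, q3⟩ := h1
    obtain ⟨t2, r1, r2, r3⟩ := h2
    exact (p3 he (hA b0) (hA b1) (hA y) (hs _ (List.mem_cons_of_mem _ hb0))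
      (hs _ (List.mem_cons_of_mem _ hb1)) (hs y (by simp)) q2 r1 p2 r2 p1 q1 p3' q3 r3).elim

/-! ### The Boolean semilattice -/

lemma boole_eval (ψ : FreeSemigroup ℕ →ₙ* Boole) (k : Bool × Fin 3) (w : FreeSemigroup ℕ) :
    k ∈ (ψ w).carrier ↔ ∃ a ∈ w.head :: w.tail, k ∈ (ψ (FreeSemigroup.of a)).carrier := by
  induction w using FreeSemigroup.recOnMul with
  | ih1 x => simp
  | ih2 x y h1 h2 =>
    have e : (ψ (FreeSemigroup.of x * y)).carrier =
        (ψ (FreeSemigroup.of x)).carrier ∪ (ψ y).carrier := by rw [map_mul]; rfl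
    rw [e, Finset.mem_union, h2]
    simp

open Classical in
lemma sep {η : Par} (φ : FreeSemigroup ℕ →ₙ* SL η) (u : FreeSemigroup ℕ) (a : Bool × Fin 3 → ℕ)
    (P : Finset (Bool × Fin 3)) (ha : ∀ k, a k ∈ u.head :: u.tail)
    (hs : ∀ d t, (∀ i, (d, i) ∈ P → t ∈ (φ (FreeSemigroup.of (a (d, i)))).1 d) → t ∈ (φ u).1 d)
    (hP : P ≠ Finset.univ ∨ ∀ d, (φ u).1 d = ∅) :
    ∃ ψ : FreeSemigroup ℕ →ₙ* Boole, ∀ w, ψ u = ψ w → φ u = φ w := by
  set ψ : FreeSemigroup ℕ →ₙ* Boole := FreeSemigroup.lift fun y =>
    if ∀ d, (φ u).1 d ⊆ (φ (FreeSemigroup.of y)).1 d then ⟨P.filter fun k => a k = y⟩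
      else ⟨Finset.univ⟩ with hψ
  have hof : ∀ y, ψ (FreeSemigroup.of y) =
      if ∀ d, (φ u).1 d ⊆ (φ (FreeSemigroup.of y)).1 d then ⟨P.filter fun k => a k = y⟩
        else ⟨Finset.univ⟩ := fun y => FreeSemigroup.lift_of _ _
  have hge : ∀ y ∈ u.head :: u.tail, ∀ d, (φ u).1 d ⊆ (φ (FreeSemigroup.of y)).1 d :=
    fun y hy d t ht => (eval φ u d t).1 ht y hy
  have hu : (ψ u).carrier = P := by
    ext k
    rw [boole_eval]
    constructor
    · rintro ⟨y, hy, hk⟩
      rw [hof, if_pos (hge y hy)] at hk
      exact (Finset.mem_filter.1 hk).1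
    · intro hk
      refine ⟨a k, ha k, ?_⟩
      rw [hof, if_pos (hge _ (ha k))]
      exact Finset.mem_filter.2 ⟨hk, rfl⟩
  refine ⟨ψ, fun w hw => ?_⟩
  have hw' : (ψ w).carrier = P := by rw [← hw, hu]
  have hall : ∀ y ∈ w.head :: w.tail, ∀ d, (φ u).1 d ⊆ (φ (FreeSemigroup.of y)).1 d := by
    intro y hy
    rcases hP with hP | hP
    · by_contra hcon
      refine hP (Finset.eq_univ_iff_forall.2 fun k => ?_)
      rw [← hw', boole_eval]
      refine ⟨y, hy, ?_⟩
      rw [hof, if_neg hcon]
      exact Finset.mem_univ k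
    · intro d
      rw [hP d]
      exact empty_subset _
  have hmem : ∀ k ∈ P, a k ∈ w.head :: w.tail := by
    intro k hk
    rw [← hw', boole_eval] at hk
    obtain ⟨y, hy, hk⟩ := hk
    rw [hof, if_pos (hall y hy)] at hk
    rw [(Finset.mem_filter.1 hk).2]
    exact hy
  refine Subtype.ext (funext fun d => Subset.antisymm (fun t ht => ?_) fun t ht => ?_)
  · rw [eval]
    exact fun y hy => hall y hy d ht
  · rw [eval] at ht
    exact hs d t fun i hi => ht _ (hmem _ hi)

/-- `SL η` belongs to the inclusive variety generated by the Boolean semilattice. -/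
theorem SL_mem (η : Par) (i : IdInclusion) (hi : Satisfies Boole i) : Satisfies (SL η) i := by
  intro φ
  have key : ∃ ψ : FreeSemigroup ℕ →ₙ* Boole, ∀ w, ψ i.word = ψ w → φ i.word = φ w := by
    set u := i.word with hu
    have hne : u.head :: u.tail ≠ [] := by simp
    choose b hb hs using fun d => three (η.hi d) (fun n => (φ (FreeSemigroup.of n)).1 d)
      (fun n => (φ _).2.1 d) _ hne
    by_cases h : ∀ d, (φ u).1 d = ∅
    · refine sep φ u (fun k => b k.1 k.2) Finset.univ (fun k => hb k.1 k.2) ?_ (Or.inr h)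
      intro d t ht
      rw [eval]
      exact hs d t fun j => ht j (Finset.mem_univ _)
    · push Not at h
      obtain ⟨d0, s, h0⟩ := h
      rw [eval] at h0
      obtain ⟨b0, hb0, b1, hb1, h1⟩ := two (η.hi d0) (fun n => (φ (FreeSemigroup.of n)).1 d0)
        (fun n => (φ _).2.1 d0) _ hne h0
      refine sep φ u (fun k => if k.1 = d0 then (if k.2 = 0 then b0 else b1) else b k.1 k.2)
        (Finset.univ.erase (d0, 2)) ?_ ?_ (Or.inl ?_)
      · intro k
        split_ifs
        · exact hb0
        · exact hb1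
        · exact hb _ _
      · intro d t ht
        rw [eval]
        by_cases hd : d = d0
        · subst hd
          refine h1 t ?_ ?_
          · simpa using ht 0 (by simp)
          · simpa using ht 1 (by simp)
        · refine hs d t fun j => ?_
          have := ht j (by simp [hd])
          simpa [hd] using this
      · intro h
        have := Finset.mem_univ (d0, (2 : Fin 3))
        rw [← h] at this
        simp at this
  obtain ⟨ψ, hψ⟩ := key
  obtain ⟨v, hv, e⟩ := hi ψ
  exact ⟨v, hv, hψ v e⟩

/-! ### The family -/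

/-- The curve of lengths. -/
noncomputable def par (t : Ioo (0 : ℝ) 1) : Par where
  e b := if b then (45 - t.1) / 100 else (41 + t.1) / 100
  lo b := by
    have h1 := t.2.1
    have h2 := t.2.2
    cases b <;> simp <;> linarith
  hi b := by
    have h1 := t.2.1
    have h2 := t.2.2
    cases b <;> simp <;> linarith

lemma par_indep {s t : Ioo (0 : ℝ) 1} (h : s ≠ t) : Satisfies (SL (par s)) (law (par t)) := by
  refine law_holds ?_
  rintro ⟨π, hπ, hle⟩
  have h1 := hle true
  have h2 := hle false
  have a1 := s.2.1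
  have a2 := s.2.2
  have b1 := t.2.1
  have b2 := t.2.2
  cases ht : π true
  · rw [ht] at h1
    simp only [par, if_true, Bool.false_eq_true, if_false] at h1
    linarith
  · have hf : π false = false := by
      cases hf : π false
      · rfl
      · exact absurd (ht.trans hf.symm) hπ
    rw [ht] at h1
    rw [hf] at h2
    simp only [par, if_true, Bool.false_eq_true, if_false] at h1 h2
    exact h (Subtype.ext (by linarith))

lemma exists_equiv : Nonempty ((ℝ ⊕ ℝ) ≃ Ioo (0 : ℝ) 1) := by
  rw [← Cardinal.eq, Cardinal.mk_Ioo_real (by norm_num : (0 : ℝ) < 1)]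
  simp [Cardinal.mk_real]

/-- A bijection between two copies of the line and an interval. -/
noncomputable def σ : (ℝ ⊕ ℝ) ≃ Ioo (0 : ℝ) 1 := exists_equiv.some

/-- The inclusive variety given by two sets of real numbers. -/
def G (B C : Set ℝ) : SemigroupClass.{u} := fun S _ =>
  ∀ i ∈ ({i | Satisfies Boole i} ∪
    {i | ∃ t : ℝ ⊕ ℝ, t ∉ Sum.inl '' B ∪ Sum.inr '' C ∧ i = law (par (σ t))} : Set IdInclusion),
    Satisfies S i

lemma G_iv (B C : Set ℝ) : IsInclusiveVariety (G.{u} B C) := ⟨_, fun _ _ => Iff.rfl⟩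

lemma G_gen (B C : Set ℝ) (T : Type u) [Semigroup T] (hT : G B C T) : generatedBy Boole T :=
  fun i hi => hT i (Or.inl hi)

lemma boole_comm (a b : Boole) : a * b = b * a := Boole.ext (Finset.union_comm _ _)

lemma boole_idem (a : Boole) : a * a = a := Boole.ext (Finset.union_self _)

lemma G_sl (B C : Set ℝ) : OfSemilattices (G.{u} B C) := fun S _ h =>
  ⟨fun a => idem_of_satisfies S (h _ (Or.inl fun φ => ⟨_, rfl, by
      simp [idemInclusion, boole_idem]⟩)) a, fun a b =>
    comm_of_satisfies S (h _ (Or.inl fun φ => ⟨_, rfl, by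
      simp only [commInclusion, map_mul]; exact boole_comm _ _⟩)) a b⟩

lemma G_mem (B C : Set ℝ) (s : ℝ ⊕ ℝ) :
    G.{u} B C (ULift.{u} (SL (par (σ s)))) ↔ s ∈ Sum.inl '' B ∪ Sum.inr '' C := by
  constructor
  · intro h
    by_contra hs
    exact law_fails _ ((satisfies_ulift _ _).1 (h _ (Or.inr ⟨s, hs, rfl⟩)))
  · rintro hs i (hi | ⟨t, ht, rfl⟩)
    · rw [satisfies_ulift]
      exact SL_mem _ i hi
    · rw [satisfies_ulift]
      exact par_indep fun h => ht (by rw [← σ.injective h]; exact hs)

lemma G_le (B C B' C' : Set ℝ) :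
    (∀ (S : Type u) [Semigroup S], G B C S → G B' C' S) ↔ B ⊆ B' ∧ C ⊆ C' := by
  constructor
  · intro h
    constructor
    · intro b hb
      have := (G_mem B' C' (Sum.inl b)).1 (h _ ((G_mem B C (Sum.inl b)).2
        (Or.inl ⟨b, hb, rfl⟩)))
      rcases this with ⟨b', hb', e⟩ | ⟨b', -, e⟩
      · rwa [Sum.inl.inj e] at hb'
      · exact absurd e (by simp)
    · intro b hb
      have := (G_mem B' C' (Sum.inr b)).1 (h _ ((G_mem B C (Sum.inr b)).2
        (Or.inr ⟨b, hb, rfl⟩)))
      rcases this with ⟨b', -, e⟩ | ⟨b', hb', e⟩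
      · exact absurd e (by simp)
      · rwa [Sum.inr.inj e] at hb'
  · rintro ⟨h1, h2⟩ S _ hS i (hi | ⟨t, ht, rfl⟩)
    · exact hS i (Or.inl hi)
    · exact hS _ (Or.inr ⟨t, fun h => ht (union_subset_union (image_mono h1) (image_mono h2) h),
        rfl⟩)

/-! ### Counting -/

lemma empty_mem {K : SemigroupClass.{u}} (hK : IsInclusiveVariety K) (S : Type u) [Semigroup S]
    (hS : ¬ Nonempty S) : K S := by
  obtain ⟨E, hE⟩ := hK
  rw [hE]
  intro i _ φ
  exact (hS ⟨φ i.word⟩).elim

lemma eq_of_theory {K K' : SemigroupClass.{u}} (hK : IsInclusiveVariety K)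
    (hK' : IsInclusiveVariety K') {T : mulLang.Theory}
    (h : ∀ (S : Type u) [Semigroup S] [Nonempty S],
      K S ↔ @Language.Theory.Model mulLang S (mulStructure S) T)
    (h' : ∀ (S : Type u) [Semigroup S] [Nonempty S],
      K' S ↔ @Language.Theory.Model mulLang S (mulStructure S) T) : K = K' := by
  funext S _
  by_cases hS : Nonempty S
  · exact propext ((h S).trans (h' S).symm)
  · exact propext ⟨fun _ => empty_mem hK' S hS, fun _ => empty_mem hK S hS⟩

instance : Countable mulLang.Symbols := by
  have h1 : Countable (Σ l, mulLang.Functions l) := by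
    refine Function.Injective.countable (f := fun p : Σ l, mulLang.Functions l => p.1) ?_
    rintro ⟨n, f⟩ ⟨m, g⟩ h
    cases f
    cases g
    rfl
  have h2 : Countable (Σ l, mulLang.Relations l) :=
    Function.Injective.countable (f := fun p : Σ l, mulLang.Relations l => p.1)
      fun p => (p.2 : Empty).elim
  exact instCountableSum

lemma mk_theory : #(mulLang.Theory) ≤ 2 ^ ℵ₀ := by
  have h : Countable mulLang.Sentence := inferInstanceAs (Countable (mulLang.Formula Empty))
  have e : #(mulLang.Theory) = 2 ^ #(mulLang.Sentence) := Cardinal.mk_set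
  rw [e]
  exact Cardinal.power_le_power_left two_ne_zero Cardinal.mk_le_aleph0

lemma mk_idInclusion : #IdInclusion ≤ 2 ^ ℵ₀ := by
  have h1 : Function.Injective fun w : FreeSemigroup ℕ => w.head :: w.tail := by
    rintro ⟨a, l⟩ ⟨b, m⟩ h
    simp only [List.cons.injEq] at h
    rw [h.1, h.2]
  have h2 : Countable (FreeSemigroup ℕ) := h1.countable
  have h3 : Function.Injective fun i : IdInclusion => (i.word, i.set) := by
    rintro ⟨a, l, _⟩ ⟨b, m, _⟩ h
    simp only [Prod.mk.injEq] at h
    obtain ⟨rfl, rfl⟩ := h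
    rfl
  refine (Cardinal.mk_le_of_injective h3).trans ?_
  rw [Cardinal.mk_prod, Cardinal.lift_id, Cardinal.lift_id, Cardinal.mk_set]
  have h4 : #(FreeSemigroup ℕ) ≤ ℵ₀ := Cardinal.mk_le_aleph0
  calc #(FreeSemigroup ℕ) * 2 ^ #(FreeSemigroup ℕ) ≤ 2 ^ ℵ₀ * 2 ^ ℵ₀ :=
        mul_le_mul' (h4.trans (Cardinal.cantor _).le)
          (Cardinal.power_le_power_left two_ne_zero h4)
    _ = 2 ^ ℵ₀ := by rw [← Cardinal.continuum, Cardinal.continuum_mul_self]

lemma mk_iv : #{K : SemigroupClass.{u} // IsInclusiveVariety K} ≤ 2 ^ (2 ^ ℵ₀ : Cardinal.{u + 1}) :=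
    by
  choose E hE using fun K : {K : SemigroupClass.{u} // IsInclusiveVariety K} => K.2
  have hinj : Function.Injective E := by
    intro K K' h
    refine Subtype.ext ?_
    funext S _
    exact propext ((hE K S).trans (by rw [h]; exact (hE K' S).symm))
  have h1 := Cardinal.lift_mk_le_lift_mk_of_injective hinj
  rw [Cardinal.lift_id'.{0, u + 1}] at h1
  refine h1.trans ?_
  rw [Cardinal.mk_set, Cardinal.lift_power, Cardinal.lift_two]
  refine Cardinal.power_le_power_left two_ne_zero ?_
  have := Cardinal.lift_le.{u + 1}.2 mk_idInclusion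
  rwa [Cardinal.lift_power, Cardinal.lift_two, Cardinal.lift_aleph0] at this

lemma mk_el : #{K : SemigroupClass.{u} // IsInclusiveVariety K ∧ IsElementary K} ≤
    (2 ^ ℵ₀ : Cardinal.{u + 1}) := by
  choose T hT using fun K : {K : SemigroupClass.{u} // IsInclusiveVariety K ∧ IsElementary K} =>
    K.2.2
  have hinj : Function.Injective T := by
    intro K K' h
    refine Subtype.ext (eq_of_theory K.2.1 K'.2.1 (T := T K) (hT K) ?_)
    rw [h]
    exact hT K'
  have h1 := Cardinal.lift_mk_le_lift_mk_of_injective hinj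
  rw [Cardinal.lift_id'.{0, u + 1}] at h1
  refine h1.trans ?_
  have := Cardinal.lift_le.{u + 1}.2 mk_theory
  rwa [Cardinal.lift_power, Cardinal.lift_two, Cardinal.lift_aleph0] at this

lemma exists_C : ∃ C : Set ℝ, ∀ B : Set ℝ, ¬ IsElementary (G.{u} B C) := by
  by_contra hcon
  push Not at hcon
  choose B hB using hcon
  choose T hT using hB
  have hinj : Function.Injective T := by
    intro C C' h
    have e : G.{u} (B C) C = G.{u} (B C') C' :=
      eq_of_theory (G_iv _ _) (G_iv _ _) (T := T C) (hT C) (by rw [h]; exact hT C')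
    have h1 : C ⊆ C' := ((G_le (B C) C (B C') C').1 fun S _ hS => by rw [← e]; exact hS).2
    have h2 : C' ⊆ C := ((G_le (B C') C' (B C) C).1 fun S _ hS => by rw [e]; exact hS).2
    exact h1.antisymm h2
  have h1 := (Cardinal.mk_le_of_injective hinj).trans mk_theory
  rw [Cardinal.mk_set, Cardinal.mk_real, ← Cardinal.continuum] at h1
  exact absurd h1 (not_le.2 (Cardinal.cantor _))

/-- **The number of the nonelementary inclusive varieties of semilattices.** There is a semilattice
`S` with `64` elements (the Boolean one) such that the ordered set of all sets of real numbers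
embeds into the ordered set of the nonelementary inclusive varieties contained in the inclusive
variety generated by `S`; there are exactly `2 ^ (2 ^ ℵ₀)` of them, which is also the number of all
inclusive varieties of semigroups, and at most `2 ^ ℵ₀` inclusive varieties of semigroups are
elementary. -/
theorem result :
    (∃ (S : Type) (_ : Semigroup S), Nat.card S = 64 ∧ (∀ a b : S, a * b = b * a) ∧
      (∀ a : S, a * a = a) ∧
      (∃ F : Set ℝ → SemigroupClass.{u},
        (∀ B, IsInclusiveVariety (F B) ∧ ¬ IsElementary (F B) ∧ OfSemilattices (F B) ∧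
          ∀ (T : Type u) [Semigroup T], F B T → generatedBy S T) ∧
        ∀ B B', (∀ (T : Type u) [Semigroup T], F B T → F B' T) ↔ B ⊆ B') ∧
      #{K : SemigroupClass.{u} // IsInclusiveVariety K ∧ ¬ IsElementary K ∧ OfSemilattices K ∧
          ∀ (T : Type u) [Semigroup T], K T → generatedBy S T} =
        2 ^ (2 ^ ℵ₀ : Cardinal.{u + 1})) ∧
    #{K : SemigroupClass.{u} // IsInclusiveVariety K} = 2 ^ (2 ^ ℵ₀ : Cardinal.{u + 1}) ∧
    #{K : SemigroupClass.{u} // IsInclusiveVariety K ∧ IsElementary K} ≤
      (2 ^ ℵ₀ : Cardinal.{u + 1}) := by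
  obtain ⟨C, hC⟩ := exists_C.{u}
  have hle : ∀ B B', (∀ (S : Type u) [Semigroup S], G B C S → G B' C S) ↔ B ⊆ B' := by
    intro B B'
    rw [G_le]
    exact ⟨fun h => h.1, fun h => ⟨h, subset_rfl⟩⟩
  have hprop : ∀ B, IsInclusiveVariety (G.{u} B C) ∧ ¬ IsElementary (G.{u} B C) ∧
      OfSemilattices (G.{u} B C) ∧ ∀ (T : Type u) [Semigroup T], G B C T → generatedBy Boole T :=
    fun B => ⟨G_iv B C, hC B, G_sl B C, fun T _ hT => G_gen B C T hT⟩
  have hlow : 2 ^ (2 ^ ℵ₀ : Cardinal.{u + 1}) ≤
      #{K : SemigroupClass.{u} // IsInclusiveVariety K ∧ ¬ IsElementary K ∧ OfSemilattices K ∧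
        ∀ (T : Type u) [Semigroup T], K T → generatedBy Boole T} := by
    have hinj : Function.Injective fun B : Set ℝ => (⟨G.{u} B C, hprop B⟩ :
        {K : SemigroupClass.{u} // IsInclusiveVariety K ∧ ¬ IsElementary K ∧ OfSemilattices K ∧
          ∀ (T : Type u) [Semigroup T], K T → generatedBy Boole T}) := by
      intro B B' h
      have e : G.{u} B C = G.{u} B' C := congrArg Subtype.val h
      exact ((hle B B').1 fun S _ hS => by rw [← e]; exact hS).antisymm
        ((hle B' B).1 fun S _ hS => by rw [e]; exact hS)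
    have h1 := Cardinal.lift_mk_le_lift_mk_of_injective hinj
    rw [Cardinal.lift_id'.{0, u + 1}] at h1
    refine le_trans (le_of_eq ?_) h1
    rw [Cardinal.mk_set, Cardinal.mk_real, Cardinal.lift_power, Cardinal.lift_two,
      Cardinal.lift_continuum, ← Cardinal.continuum]
  have hmid : #{K : SemigroupClass.{u} // IsInclusiveVariety K ∧ ¬ IsElementary K ∧
      OfSemilattices K ∧ ∀ (T : Type u) [Semigroup T], K T → generatedBy Boole T} ≤
      #{K : SemigroupClass.{u} // IsInclusiveVariety K} :=
    Cardinal.mk_le_of_injective (f := fun K => ⟨K.1, K.2.1⟩) fun K K' h =>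
      Subtype.ext (congrArg (Subtype.val (p := IsInclusiveVariety)) h)
  refine ⟨⟨Boole, inferInstance, ?_, boole_comm, boole_idem, ⟨fun B => G B C, hprop, hle⟩,
    le_antisymm (hmid.trans mk_iv) hlow⟩, le_antisymm mk_iv (hlow.trans hmid), mk_el⟩
  have e : Boole ≃ Finset (Bool × Fin 3) :=
    ⟨Boole.carrier, fun A => ⟨A⟩, fun A => rfl, fun A => rfl⟩
  rw [Nat.card_congr e, Nat.card_eq_fintype_card, Fintype.card_finset, Fintype.card_prod,
    Fintype.card_bool, Fintype.card_fin]
  norm_num

end Pool.Agent.Results.MP_a762d4_al.PowerSetOfTheReals
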